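import Pool.Agent.Helper80.AN.Main

/-!
# Anchored patterns of the Liouville function

For almost every `n` (natural density, every scale) a product of values of the Liouville function at fixed shifts along the
progression `β₀ n + α₀ a + ρ`, `a` in a window of bounded length, does not agree with any product of arbitrary functions of
other linear forms in `n` and `a` and of a polynomial phase in `a` that may depend on `n` in any way. The proof eliminates the
arbitrary functions one by one by comparing `n` with `n + h` for finitely many `h`, and the polynomial phase by differencing in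
`a`; what is left is a linear recurrence over the field with two elements, hence an almost period of `λ`, on many short
progressions; this contradicts the theorem of Matomäki and Radziwiłł.
-/

set_option autoImplicit false

open Finset

namespace Pool.Agent.Results.MP_e6fa8b_nt.AnchoredPatterns

/-- Liouville's function of `|m|`, that is `(-1) ^ Ω(|m|)`, with the value `1` at `m = 0`. -/
noncomputable def lam (m : ℤ) : ℝ := (-1) ^ ArithmeticFunction.cardFactors m.natAbs

/-- The polynomial phase `exp(2 π i P(a))`. -/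
noncomputable def phase (P : Polynomial ℝ) (a : ℤ) : ℂ :=
  Complex.exp (2 * Real.pi * Complex.I * ((P.eval (a : ℝ) : ℝ) : ℂ))

/-- The sum over `u < a ≤ u + A` of `∏_{s ∈ S} λ(|β₀ n + α₀ (a + s) + ρ|) exp(2 π i P(a)) ∏_j g_j(β_j n + α_j a)`. -/
noncomputable def windowSum {l : ℕ} (β₀ α₀ ρ : ℤ) (S : Finset ℤ) (β α : Fin l → ℤ) (g : Fin l → ℤ → ℂ)
    (P : Polynomial ℝ) (u : ℤ) (A : ℕ) (n : ℤ) : ℂ :=
  ∑ a ∈ Ioc u (u + A), ((∏ s ∈ S, lam (β₀ * n + α₀ * (a + s) + ρ) : ℝ) : ℂ) * phase P a *
    ∏ j, g j (β j * n + α j * a)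

/-- Let `β₀, α₀, ρ` be integers, `β₀ α₀ ≠ 0`, let `S` be a nonempty finite set of integers and let `(β_j, α_j)`, `j < l`, be
integer pairs that are not proportional to `(β₀, α₀)`. For all `d`, `ε > 0` and `K` there are `η > 0` and `A₀` such that for
all `X`, all `A₀ ≤ A ≤ K X`, all `|u| ≤ K X`, all functions `g_j : ℤ → ℂ` bounded by `1` and any choice of real polynomials
`P_n` of degree at most `d`, the sum over the window `(u, u + A]` is at most `(1 - η) A` in absolute value for all but at most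
`ε X` of the `1 ≤ n ≤ X`. -/
theorem result (β₀ α₀ ρ : ℤ) (hβ₀ : β₀ ≠ 0) (hα₀ : α₀ ≠ 0) (S : Finset ℤ) (hS : S.Nonempty) (l : ℕ)
    (β α : Fin l → ℤ) (hind : ∀ j, α j * β₀ ≠ α₀ * β j) (d : ℕ) (ε : ℝ) (hε : 0 < ε) (K : ℕ) :
    ∃ η : ℝ, 0 < η ∧ ∃ A₀ : ℕ, ∀ (X A : ℕ) (u : ℤ), A₀ ≤ A → A ≤ K * X → |u| ≤ K * X →
      ∀ g : Fin l → ℤ → ℂ, (∀ j x, ‖g j x‖ ≤ 1) → ∀ P : ℤ → Polynomial ℝ, (∀ n, (P n).natDegree ≤ d) →
      (((Icc (1 : ℤ) X).filter (fun n => (1 - η) * A < ‖windowSum β₀ α₀ ρ S β α g (P n) u A n‖)).card : ℝ) ≤ ε * X :=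
  Pool.Agent.Helper80.AN.main β₀ α₀ ρ hβ₀ hα₀ S hS l β α hind d ε hε K

end Pool.Agent.Results.MP_e6fa8b_nt.AnchoredPatterns
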