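import Mathlib
import Pool.Agent.Helper34.SW.W7

/-!
# The Hardy-Littlewood-Chowla statement in windows of length `(log N) ^ (1/2 + ε)`: a nontrivial bound

`f ≥ 1` shifts of the von Mangoldt function are held fixed, one shift `B + h` of the Liouville function moves in a window
of length `H`; all other factors (further shifts of the Liouville function, for instance) are hidden in an arbitrary weight
`b` of modulus at most one. The integers `n` with all `n + a i` prime have density `(log N) ^ (-f)`, so `(log N) ^ f` is the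
natural limit of the mean square method. The starting files (`ShortWindowsH16`) reach `o(N)` for
`H = (log N) ^ (f - η)`, where `η → 0` as the precision `ε → 0`. Here all the windows of length at least
`(log N) ^ (f / 2 + ε)` are covered, with the bound `C κ N`, `κ = 1 / θ - 1` for `H = (log N) ^ (θ f)`; for `f = 1` the
constant is `C = 1`, so the bound is nontrivial for all `θ > 1 / 2`.

Method. The integers of the window with a prime factor between `(log N) ^ f / H` and `H` (up to powers
`(log N) ^ ε`) are treated with the identity of Ramare, with the weights `1 / (1 + number of these prime factors)`;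
these weights are integrals of multiplicative functions, to which the theorem of Matomäki, Radziwiłł and Tao
applies uniformly (starting files, `SparseShifts`), and for the primes of a dyadic block the linear forms
`m ↦ p m - h` are numerous enough for the covariance method of `ShortWindowsH16`. The remaining integers are
bounded trivially, with the exact density: for `f = 1` by the pure sieve and the theorem of Siegel and Walfisz.
-/

set_option autoImplicit false

namespace Pool.Agent.Results.MP_e6fa8b_nt.NontrivialShortWindows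

open Finset

/-- The sum of the problem up to `X`, with the weight `b` and the Liouville function at `n + t`:
`∑ n ≤ X, b n (∏ i, Λ(n + a i)) λ(n + t)`. -/
noncomputable def corr {f : ℕ} (a : Fin f → ℕ) (b : ℕ → ℂ) (X t : ℕ) : ℂ :=
  ∑ n ∈ Icc 1 X, b n * ((∏ i, ArithmeticFunction.vonMangoldt (n + a i) : ℝ) : ℂ) *
    (-1 : ℂ) ^ (ArithmeticFunction.cardFactors (n + t))

/-- The number `κ = max(0, f log log N / log H - 1)`, so `κ = 1 / θ - 1` for `H = (log N) ^ (θ f)`, `θ ≤ 1`. -/
noncomputable def kappa (f N H : ℕ) : ℝ := max 0 (f * Real.log (Real.log N) / Real.log H - 1)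

open Classical in
/-- Let `f ≥ 1` and `D` be given. There is a constant `C ≥ 1`, with `C = 1` if `f = 1`, such that for each `ε > 0`
there is `N₀` such that for `N ≥ N₀`, `(log N) ^ (f / 2 + ε) ≤ H ≤ N`, distinct `a 1, ..., a f ≤ N` with differences at
most `D`, `B ≤ N` and a weight `b` of modulus at most one: all `h ≤ H` but at most `ε H` satisfy
`|∑ n ≤ X, b n (∏ i, Λ(n + a i)) λ(n + B + h)| ≤ (C κ + ε) N` for all `X ≤ N`. -/
theorem result (f : ℕ) (hf : 1 ≤ f) (D : ℕ) : ∃ C : ℝ, 1 ≤ C ∧ (f = 1 → C = 1) ∧ ∀ ε : ℝ, 0 < ε →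
    ∃ N₀ : ℕ, ∀ N H : ℕ, N₀ ≤ N → Real.log N ^ ((f : ℝ) / 2 + ε) ≤ H → H ≤ N →
      ∀ a : Fin f → ℕ, Function.Injective a → (∀ i, a i ≤ N) → (∀ i l, a i ≤ a l + D) → ∀ B : ℕ, B ≤ N →
        ∀ b : ℕ → ℂ, (∀ n, ‖b n‖ ≤ 1) →
          (((Icc 1 H).filter (fun h => ∃ X : ℕ, X ≤ N ∧ (C * kappa f N H + ε) * N < ‖corr a b X (B + h)‖)).card : ℝ) ≤
            ε * H := by
  have key : ∀ C : ℝ, 1 ≤ C → ∀ w : ℕ, Pool.Agent.Helper34.SW.TFree f D C w → ∀ ε : ℝ, 0 < ε →
      ∃ N₀ : ℕ, ∀ N H : ℕ, N₀ ≤ N → Real.log N ^ ((f : ℝ) / 2 + ε) ≤ H → H ≤ N →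
      ∀ a : Fin f → ℕ, Function.Injective a → (∀ i, a i ≤ N) → (∀ i l, a i ≤ a l + D) → ∀ B : ℕ, B ≤ N →
        ∀ b : ℕ → ℂ, (∀ n, ‖b n‖ ≤ 1) →
          (((Icc 1 H).filter (fun h => ∃ X : ℕ, X ≤ N ∧ (C * kappa f N H + ε) * N < ‖corr a b X (B + h)‖)).card : ℝ) ≤
            ε * H := by
    intro C hC w hTF ε hε
    obtain ⟨N₀, h0⟩ := Pool.Agent.Helper34.SW.finalW f hf D C hC w hTF ε hε
    refine ⟨N₀, fun N H hN hH1 hH2 a ha haN haD B hB b hb => ?_⟩
    refine le_trans (le_of_eq ?_) (h0 N hN H hH1 hH2 a ha haN haD B hB b hb)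
    congr 2
    apply filter_congr
    intro h _
    have e : ∀ X : ℕ, corr a b X (B + h) = Pool.Agent.E8helper16.SL.SX a b X (B + h) := by
      intro X
      unfold corr Pool.Agent.E8helper16.SL.SX
      apply sum_congr rfl
      intro n hn
      rw [mem_Icc] at hn
      rw [Pool.Agent.E8helper16.SL.lz_nat _ (by omega)]
    simp only [e]
    rfl
  by_cases h1 : f = 1
  · refine ⟨1, le_rfl, fun _ => rfl, ?_⟩
    apply key 1 le_rfl 2
    subst h1
    exact Pool.Agent.Helper34.SW.tfree_one D
  · obtain ⟨C, hC, w, hTF⟩ := Pool.Agent.Helper34.SW.tfree_gen f hf D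
    exact ⟨C, hC, fun h => absurd h h1, key C hC w hTF⟩

end Pool.Agent.Results.MP_e6fa8b_nt.NontrivialShortWindows
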