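import Pool.Agent.Helper81.Gap.Fin

/-!
MP_e6fa8b_nt (Chowla's conjecture, the case of the Liouville function): the correlations of the Liouville
function along `k` distinct shifts are, at almost all scales and for logarithmic averages, at most
`1 - 2 / (2 k ^ 2 - k + 3) + ε` in absolute value. The gap is explicit, polynomial in `k`, and does not
depend on the shifts; one exceptional set of scales, of logarithmic density zero, serves all `k`, all shifts
and all `ε`.
-/

set_option autoImplicit false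

namespace Pool.Agent.Results.MP_e6fa8b_nt.PolynomialGap

open Finset Filter Topology

/-- the Liouville function -/
noncomputable def liouville (n : ℕ) : ℝ := (-1) ^ ArithmeticFunction.cardFactors n

open Classical in
/-- a set of scales of logarithmic density zero -/
def LogDensityZero (E : Set ℕ) : Prop :=
  Tendsto (fun X : ℕ => (∑ n ∈ Icc 1 X, if n ∈ E then (1 : ℝ) / n else 0) / Real.log X) atTop (𝓝 0)

/-- the gap for `k` shifts -/
noncomputable def gap (k : ℕ) : ℝ := 2 / (2 * (k : ℝ) ^ 2 - k + 3)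

theorem result : ∃ E : Set ℕ, LogDensityZero E ∧
    ∀ (k : ℕ) (h : Fin k → ℕ), 2 ≤ k → Function.Injective h → ∀ ε : ℝ, 0 < ε →
      (∃ N₀ : ℕ, ∀ N : ℕ, N₀ ≤ N → N ∉ E →
        |∑ n ∈ Icc 1 N, ∏ i, liouville (n + h i)| ≤ (1 - gap k + ε) * N) ∧
      ∃ N₀ : ℕ, ∀ N : ℕ, N₀ ≤ N →
        |∑ n ∈ Icc 1 N, (∏ i, liouville (n + h i)) / n| ≤ (1 - gap k + ε) * Real.log N := by
  obtain ⟨E, hE, h1⟩ := Pool.Agent.Helper81.Gap.final
  refine ⟨E, hE, fun k h hk hh ε hε => ?_⟩
  obtain ⟨h2, h3⟩ := h1 k (fun _ => 1) h true ⟨hk, by simp only [if_true]; exact ⟨trivial, hh⟩⟩ ε hε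
  have e : ∀ n, Pool.Agent.Y958.U.FF (fun _ : Fin k => 1) h n = ∏ i, liouville (n + h i) := by
    intro n
    unfold Pool.Agent.Y958.U.FF liouville
    apply prod_congr rfl
    intro i _
    rw [one_mul]
  have e2 : Pool.Agent.Helper81.Gap.thr k true = 1 - gap k := by
    simp only [Pool.Agent.Helper81.Gap.thr, if_true, gap]
  simp only [e, e2] at h2 h3
  exact ⟨h2, h3⟩

end Pool.Agent.Results.MP_e6fa8b_nt.PolynomialGap
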