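import Mathlib
import Pool.Agent.Helper34.SR.A8

/-!
# Sign patterns of the Liouville function after prime tuples, at the scale of the square root of the mean gap

The `n ≤ N` such that `n + a 1, ..., n + a f` are prime have mean gap about `(log N) ^ f`. The theorem says that almost
all of them are followed, at any distance `B ≤ N`, by a window of length `H` in which the Liouville function differs
from a prescribed pattern of signs, as soon as `H ≥ C √((log N) ^ f log log N)`; for `H ≥ (log N) ^ (f / 2 + δ)` it
differs from the pattern in a positive proportion of the places.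

Method. For a prime `q` the multiples of `q` in the window give `- λ` on a window of length `H / q` around `(n + B) / q`.
For the primes `q` of a dyadic block with `q ≤ H / C` and with more than `C (log N) ^ f / H` primes, the linear forms
`m ↦ q m - h` are numerous enough for the covariance method of the library module `ShortWindowsH16`, and the averaged
two point theorem of Matomäki, Radziwiłł and Tao shows that the sum of `s h λ(n + B + h)` over the multiples of `q` is
`o(H / q)` for almost all prime tuples. A second moment of the number of these prime divisors (an upper bound sieve in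
arithmetic progressions) turns the mismatches at the multiples into mismatches in the window.
-/

set_option autoImplicit false

namespace Pool.Agent.Results.MP_e6fa8b_nt.SignPatternsSquareRoot
open Finset

/-- For every number `f` of forms, diameter `D` and `ε > 0` there are `C ≥ 1`, `c > 0` such that for all large `N`, all distinct
`a i ≤ N` with differences at most `D`, all `B, H ≤ N` and all `R ≥ C` with `R √((log N)^f log log N) ≤ H`, and every pattern `s`:
with the exception of at most `ε N / (log N)^f` of them, the `n ≤ N` such that all `n + a i` are prime are followed by a window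
in which the signs of the Liouville function differ from the pattern in at least `c · min (1, log R / log log N) · H` places. -/
theorem result (f : ℕ) (hf : 1 ≤ f) (D : ℕ) (ε : ℝ) (hε : 0 < ε) :
    ∃ C c : ℝ, 1 ≤ C ∧ 0 < c ∧ ∃ N₀ : ℕ, ∀ N : ℕ, N₀ ≤ N →
      ∀ a : Fin f → ℕ, Function.Injective a → (∀ i, a i ≤ N) → (∀ i j, a i ≤ a j + D) →
      ∀ B H : ℕ, B ≤ N → H ≤ N → ∀ R : ℝ, C ≤ R → R * √(Real.log N ^ f * Real.log (Real.log N)) ≤ H →
      ∀ s : ℕ → ℤ,
        (Nat.card {n : ℕ | 1 ≤ n ∧ n ≤ N ∧ (∀ i, (n + a i).Prime) ∧
          (((Icc 1 H).filter (fun h => (-1 : ℤ) ^ (ArithmeticFunction.cardFactors (n + B + h)) ≠ s h)).card : ℝ) <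
            c * min 1 (Real.log R / Real.log (Real.log N)) * H} : ℝ) ≤ ε * (N / Real.log N ^ f) := by
  classical
  obtain ⟨C, c, hC, hc, N₀, h⟩ := Pool.Agent.Helper34.SR.final f hf D ε hε
  refine ⟨C, c, by linarith, hc, N₀, ?_⟩
  intro N hN a ha haN haD B H hB hH R hR hRH s
  have key := h N hN a ha haN haD B H hB hH R hR hRH s
  refine le_trans (le_of_eq ?_) key
  unfold Pool.Agent.Helper34.SR.num Pool.Agent.Helper34.SR.mis
  rw [← Nat.card_eq_finsetCard]
  congr 2
  have : {n : ℕ | 1 ≤ n ∧ n ≤ N ∧ (∀ i, (n + a i).Prime) ∧
          (((Icc 1 H).filter (fun h => (-1 : ℤ) ^ (ArithmeticFunction.cardFactors (n + B + h)) ≠ s h)).card : ℝ) <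
            c * min 1 (Real.log R / Real.log (Real.log N)) * H} =
      (((Icc 1 N).filter (fun n => (∀ i, (n + a i).Prime) ∧
          (((Icc 1 H).filter (fun h => (-1 : ℤ) ^ (ArithmeticFunction.cardFactors (n + B + h)) ≠ s h)).card : ℝ) <
            c * min 1 (Real.log R / Real.log (Real.log N)) * H) : Finset ℕ) : Set ℕ) := by
    ext n
    simp only [Set.mem_ofPred_eq, coe_filter, mem_Icc]
    tauto
  rw [this]
  rfl

end Pool.Agent.Results.MP_e6fa8b_nt.SignPatternsSquareRoot
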